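import Pool.Agent.N59.TT.Fin
import Pool.Agent.Y179.SS.Free
import Pool.Agent.Run7.h161.CG.NoFree
import Pool.Agent.Run7.h161.CG.Quot

/-!
# Finitely presented groups and contracting groups

A group `G` of automorphisms of the tree `X^*`, `X` finite, with a contracting recursion contains no
nonabelian free group (Nekrashevych), and most known groups of intermediate growth are of this kind. We
show that `G` contains no finitely presented groups except virtually abelian ones, and, unless it is
virtually abelian, has no finitely presented covers without free subgroups (no amenable and no torsion
covers, for instance), if it can be defined by a contracting recursion on a group `Γ` such that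

* the elements of finite order in `Γ` which act trivially on the tree die, for instance `Γ` is
  torsion-free;
* every homomorphism to `Γ` from a finitely presented group without nonabelian free subgroups has a
  virtually abelian image (`Alternative Γ`), for instance `Γ` is virtually free or (not proved here)
  hyperbolic.

So `G` contains no finitely presented monster of type (1), (2), (7) and no finitely presented infinite
torsion group. The iterated monodromy groups of hyperbolic and sub-hyperbolic rational functions are
of this kind (`Γ` is the fundamental group of a punctured sphere or of an orbifold on it), and here the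
activity of the automata is in general exponential. The starting theorem `FreeOrVirtuallyAbelian`
covers the groups generated by automorphisms of polynomial activity and directed groups along regular
rays; the closure properties of the class `Alternative` proved there are used here.

Proof. Elements of `Γ` which act trivially die (see `Run7.h161.CG.Die`), so `G` is the directed
colimit of subgroups of iterated wreath products of `Γ`, and `Alternative G` holds.

It remains to see that `G` has no nonabelian free subgroups. Let `F` be a free subgroup of rank two. Positive words of length `2 ^ j` have sections
in the nucleus at the level `n + j k`, so at this level not all of them have different pairs (image of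
`v`, section at `v`): some nontrivial element of `F` fixes `v` with trivial section, for every `v` of the
level. In the subgroup of `F` that fixes the level, the elements with trivial section at `v` form a
nontrivial normal subgroup. In free groups finitely many such subgroups have a nontrivial intersection.
-/

set_option autoImplicit false

namespace Pool.Agent.Results.MP_65b575_al.ContractingGroups

open Pool.Agent.Y462.SS (Wr Dies)
open Run7.h161.CG

/-- `K` contains a nonabelian free group. -/
def HasFree (K : Type) [Group K] : Prop := ∃ f : FreeGroup (Fin 2) →* K, Function.Injective f

/-- `K` has an abelian subgroup of finite index. -/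
def VirtAbelian (K : Type) [Group K] : Prop :=
  ∃ A : Subgroup K, A.FiniteIndex ∧ ∀ x ∈ A, ∀ y ∈ A, x * y = y * x

/-- For every homomorphism `φ` from a finitely presented group `K` to `G`, `K` contains a nonabelian
free group or the image of `φ` is virtually abelian. -/
def Alternative (G : Type) [Group G] : Prop :=
  ∀ (K : Type) [Group K], Group.IsFinitelyPresented K → ∀ φ : K →* G,
    HasFree K ∨ VirtAbelian φ.range

theorem alternative_iff (G : Type) [Group G] : Alternative G ↔ Pool.Agent.N59.TT.TT G := by
  constructor
  · intro h K _ hK hF φ
    exact (h K hK φ).resolve_left hF
  · intro h K _ hK φ
    by_cases hF : HasFree K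
    · exact Or.inl hF
    · exact Or.inr (h K hK hF φ)

theorem virtAbelian_of_range {K G : Type} [Group K] [Group G] (φ : K →* G)
    (hφ : Function.Injective φ) (h : VirtAbelian φ.range) : VirtAbelian K := by
  exact Pool.Agent.N59.TT.VAb.of_inj φ.rangeRestrict (fun a b hab =>
    hφ (congrArg (fun z : φ.range => (z : G)) hab)) h

theorem alternative_virtFree (Γ : Type) [Group Γ] (F : Subgroup Γ) (hF : F.FiniteIndex)
    (hfree : IsFreeGroup F) : Alternative Γ := by
  rw [alternative_iff]
  refine Pool.Agent.N59.TT.closed_TT.finiteIndex Γ F hF ?_
  exact Pool.Agent.N59.TT.closed_TT.of_injective F (FreeGroup (IsFreeGroup.Generators F))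
    (IsFreeGroup.toFreeGroup F).toMonoidHom (IsFreeGroup.toFreeGroup F).injective
    (Pool.Agent.Y179.SS.t_free _ Pool.Agent.N59.TT.closed_TT _)

/-- Let `ψ` be a contracting recursion over a finite alphabet `X` on a group `Γ` which has a free
subgroup of finite index or more generally satisfies `Alternative Γ`, and let `G` be the quotient of `Γ` by
the kernel of the action on the words. Suppose that the elements of finite order in `Γ` which act trivially
on the words die. Then `Alternative G` holds, and every finitely presented subgroup of `G` is virtually
abelian. -/
theorem result (X Γ G : Type) [Finite X] [Group Γ] [Group G]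
    (hΓ : (∃ F : Subgroup Γ, F.FiniteIndex ∧ IsFreeGroup F) ∨ Alternative Γ)
    (ψ : Γ →* Wr X Γ) (hψ : Contracting ψ) (ht : ∀ γ : Γ, Triv ψ γ → IsOfFinOrder γ → Dies ψ γ)
    (f : Γ →* G) (hf : Function.Surjective f) (hk : ∀ γ : Γ, f γ = 1 ↔ Triv ψ γ) :
    Alternative G ∧ ∀ H : Subgroup G, Group.IsFinitelyPresented H → VirtAbelian H := by
  have hΓ' : Alternative Γ := by
    rcases hΓ with ⟨F, hF, hfree⟩ | h
    · exact alternative_virtFree Γ F hF hfree
    · exact h
  obtain ⟨M, k, hM⟩ := exists_nuc hψ
  have h1 : Alternative G := (alternative_iff G).2
    (closed_quot Pool.Agent.N59.TT.TT Pool.Agent.N59.TT.closed_TT ψ ((alternative_iff Γ).1 hΓ')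
      (dies_of_triv hM ht) G f hf hk)
  refine ⟨h1, fun H hH => ?_⟩
  rcases h1 H hH H.subtype with ⟨ι, hι⟩ | h
  · obtain ⟨Y, _, φ, hφ, hfaith⟩ := contractingGroup_q ψ f hf hk hψ
    exact (no_free hφ hfaith (H.subtype.comp ι) (H.subtype_injective.comp hι)).elim
  · exact virtAbelian_of_range _ H.subtype_injective h

end Pool.Agent.Results.MP_65b575_al.ContractingGroups
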