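import Pool.Agent.Run7.h266.BddB

/-!
# Finitely presented groups in full groups of bounded and of one-dimensional actions

Let `G` be a finitely presented group and `L` a finitely generated subgroup such that every
homomorphism from a finite index subgroup `K` of `G` to `ℤ` is trivial on `K ∩ L` (`Unseen L`; for
instance if `L` is not virtually indicable).

(1) Let `Γ` be a group acting on the infinite words over a finite alphabet by bounded
transformations: for each `γ` there is `b` such that, for all `n`, at most `b` prefixes `v` of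
length `n` are exceptional, where `v` is called exceptional if `γ` changes letters after the first
`n` of some word which begins with `v`. For instance bounded automorphisms of the rooted tree, such
as the elements of the groups of Grigorchuk, Gupta and Sidki, of the Basilica group, of the Hanoi
towers group and of the iterated monodromy groups of postcritically finite polynomials. Then every
homomorphism from `G` to the full group of the action of `Γ` maps `L` to a finite group. So, although
these full groups contain many infinite finitely generated torsion groups, they contain no infinite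
finitely presented group which is not virtually indicable, and no finitely presented group
containing such a torsion group. There is no condition on the growth of the orbits.

(2) The same holds for the topological full group of a minimal action on a compact Hausdorff space
which is one-dimensional (for every finite set `E` of elements there are two-colourings such that
monochromatic chains of jumps in `E` have bounded size: uniform asymptotic dimension at most one)
and has an invariant mean, for instance if `Γ` is amenable.
-/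

set_option autoImplicit false

open scoped Pointwise Topology

open Pool.Agent

namespace Pool.Agent.Results.MP_65b575_al.FullGroupsOfThinActions

universe u v w

/-- Some finite index subgroup has a nontrivial homomorphism to `ℤ`. -/
def VirtuallyIndicable (G : Type u) [Group G] : Prop :=
  ∃ H : Subgroup G, H.FiniteIndex ∧ ∃ f : H →* Multiplicative ℤ, f ≠ 1

/-- Every homomorphism from a finite index subgroup `K` of `G` to `ℤ` is trivial on `K ∩ L`. -/
def Unseen {G : Type} [Group G] (L : Subgroup G) : Prop :=
  ∀ K : Subgroup G, K.FiniteIndex → ∀ (φ : K →* Multiplicative ℤ) (k : K), (k : G) ∈ L → φ k = 1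

/-- The prefixes of length `n` of infinite words such that `γ` changes a letter after the first `n`
letters of some word with this prefix. -/
def exceptional {Γ : Type w} [Group Γ] {A : Type} [MulAction Γ (ℕ → A)] (γ : Γ) (n : ℕ) :
    Set (Fin n → A) :=
  {v | ∃ x : ℕ → A, (∀ i : Fin n, x i = v i) ∧ ∃ i, n ≤ i ∧ (γ • x) i ≠ x i}

/-- For each `γ` the number of exceptional prefixes of length `n` is bounded. -/
def BoundedAction (Γ : Type w) [Group Γ] (A : Type) [MulAction Γ (ℕ → A)] : Prop :=
  ∀ γ : Γ, ∃ b : ℕ, ∀ n : ℕ, (exceptional (A := A) γ n).encard ≤ b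

/-- A jump from `x` to `y` by an element of `E` such that the colours of `x` and `y` agree; `B` is
the set of the points of the first colour. -/
def Jump {Γ : Type w} [Group Γ] {X : Type} [MulAction Γ X] (E : Set Γ) (B : Set X) (x y : X) :
    Prop :=
  (x ∈ B ↔ y ∈ B) ∧ ∃ γ ∈ E, y = γ • x

/-- For each finite set `E` there is a colouring of `X` by two colours such that a bounded number of
points is reached by chains of jumps from each point. -/
def OneDimensional (Γ : Type w) [Group Γ] (X : Type) [MulAction Γ X] : Prop :=
  ∀ E : Set Γ, E.Finite → ∃ (t : ℕ) (B : Set X), ∀ x,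
    {y | Relation.ReflTransGen (Jump E B) x y}.encard ≤ t

/-- A finitely additive probability measure on all subsets of `X`, invariant under `Γ`. -/
structure IsMean (Γ : Type w) [Group Γ] {X : Type} [MulAction Γ X] (m : Set X → ℝ) : Prop where
  univ : m Set.univ = 1
  nonneg : ∀ B, 0 ≤ m B
  add : ∀ B B' : Set X, Disjoint B B' → m (B ∪ B') = m B + m B'
  inv : ∀ (γ : Γ) (B : Set X), m ((fun x => γ • x) ⁻¹' B) = m B

/-- Every orbit is dense. -/
def Minimal (Γ : Type w) (X : Type) [Group Γ] [MulAction Γ X] [TopologicalSpace X] : Prop :=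
  ∀ U : Set X, IsOpen U → U.Nonempty → ∀ x, ∃ γ : Γ, γ • x ∈ U

/-- At each point the permutation `σ` coincides with an element of a fixed finite subset of `Γ`. -/
def Piecewise (Γ : Type w) {X : Type} [Group Γ] [MulAction Γ X] (σ : Equiv.Perm X) : Prop :=
  ∃ E : Set Γ, E.Finite ∧ ∀ x, ∃ γ ∈ E, σ x = γ • x

/-- The homeomorphism `σ` coincides locally with elements of `Γ`. -/
def Locally (Γ : Type w) {X : Type} [Group Γ] [MulAction Γ X] [TopologicalSpace X]
    (σ : X ≃ₜ X) : Prop :=
  ∀ x, ∃ γ : Γ, ∀ᶠ y in 𝓝 x, σ y = γ • y

/-- The first Betti number: the rank of the abelianization. -/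
noncomputable def bettiOne (K : Type u) [Group K] : ℕ :=
  Module.finrank ℤ (Additive (Abelianization K))

/-- The first Betti numbers of the finite index subgroups of `L` are bounded. -/
def BoundedBetti (L : Type u) [Group L] : Prop :=
  ∃ b : ℕ, ∀ K : Subgroup L, K.FiniteIndex → bettiOne K ≤ b

/-- The commutator subgroups of the finite index subgroups are finitely generated. -/
def CommutatorsFG (L : Type u) [Group L] : Prop :=
  ∀ K : Subgroup L, K.FiniteIndex → (⁅K, K⁆ : Subgroup L).FG

/-- The product of the letters `a` (for `false`) and `b` (for `true`) along the list `l`. -/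
def word {G : Type u} [Group G] (a b : G) (l : List Bool) : G :=
  (l.map fun t => if t then b else a).prod

/-- No two elements generate a free semigroup of rank two. -/
def NoFreeSemigroup (G : Type u) [Group G] : Prop :=
  ∀ a b : G, ∃ l l' : List Bool, l ≠ l' ∧ word a b l = word a b l'

/-- The growth function with respect to `S`: the number of elements of word length at most `n`. -/
noncomputable def growth {G : Type u} [Group G] (S : Finset G) (n : ℕ) : ℕ :=
  (((S : Set G) ∪ (S : Set G)⁻¹ ∪ {1}) ^ n).ncard

/-- Type (2). -/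
def Type2 (G : Type u) [Group G] : Prop :=
  ∃ n : ℕ, 1 ≤ n ∧ ∀ g : G, g ^ n = 1

/-- Type (3). -/
def Type3 (G : Type u) [Group G] : Prop :=
  ¬ IsCyclic G ∧ ∀ H : Subgroup G, H ≠ ⊤ → IsCyclic H

/-- Type (4). -/
def Type4 (G : Type u) [Group G] : Prop :=
  ∃ p : ℕ, p.Prime ∧ ∀ H : Subgroup G, H ≠ ⊥ → H ≠ ⊤ → IsCyclic H ∧ Nat.card H = p

/-- Type (5). -/
def Type5 (G : Type u) [Group G] : Prop :=
  ∀ g : G, ∀ m : ℕ, 1 ≤ m → ∃ h : G, h ^ m = g

/-- Type (6). -/
def Type6 (G : Type u) [Group G] : Prop :=
  Finite (ConjClasses G)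

/-- Type (7): the growth is bounded by no polynomial and, for each `c > 0`, it is somewhere below
`e ^ (c r)`. -/
def Type7 (G : Type u) [Group G] : Prop :=
  ∃ S : Finset G, Subgroup.closure (S : Set G) = ⊤ ∧
    (∀ C d : ℕ, ∃ r : ℕ, C * (r + 1) ^ d < growth S r) ∧
    ∀ c : ℝ, 0 < c → ∃ r : ℕ, (growth S r : ℝ) < Real.exp (c * r)

/-- The conclusions for the subgroup `L` and the homomorphism `f`: (a) if `L` is not virtually
indicable, then `f(L)` is finite; (b) if the Betti numbers are bounded and the commutator
subgroups finitely generated, or there is no free subsemigroup, then `f(L)` is virtually abelian;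
(c) `f` is not injective on `L` if `L` is a monster of one of the types (2)-(6), or of type (7)
with bounded Betti numbers. -/
def Tame {G : Type u} [Group G] (L : Subgroup G) {P : Type v} [Group P] (f : G →* P) : Prop :=
  (¬ VirtuallyIndicable L → (f '' (L : Set G)).Finite) ∧
  (BoundedBetti L → CommutatorsFG L ∨ NoFreeSemigroup L →
    ∃ A : Subgroup L, A.FiniteIndex ∧ ∀ a ∈ A, ∀ b ∈ A, f a * f b = f b * f a) ∧
  (Infinite L → Type2 L ∨ Type3 L ∨ Type4 L ∨ Type5 L ∨ Type6 L ∨ (Type7 L ∧ BoundedBetti L) →
    ¬ Set.InjOn f (L : Set G))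

theorem type4_torsion {G : Type u} [Group G] (h : Type4 G) :
    ¬ N6.W.VI G ∨ IsCyclic G := by
  obtain ⟨p, hp, h⟩ := h
  by_cases hc : IsCyclic G
  · exact Or.inr hc
  · refine Or.inl (N6.W.not_vi_of_torsion (fun g => ?_))
    by_cases hg : g = 1
    · exact ⟨1, le_rfl, by simp [hg]⟩
    · have h1 : Subgroup.zpowers g ≠ ⊥ := by
        rw [Ne, Subgroup.zpowers_eq_bot]
        exact hg
      have h2 : Subgroup.zpowers g ≠ ⊤ := by
        intro e
        apply hc
        refine ⟨g, fun x => ?_⟩
        have hx : x ∈ Subgroup.zpowers g := by rw [e]; trivial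
        exact hx
      obtain ⟨-, h3⟩ := h _ h1 h2
      rw [Nat.card_zpowers] at h3
      exact ⟨p, hp.one_le, by rw [← h3, pow_orderOf_eq_one]⟩

theorem type4_not_cyclic {G : Type u} [Group G] [Infinite G] (h : Type4 G) : ¬ IsCyclic G := by
  obtain ⟨p, hp, h⟩ := h
  rintro ⟨c, hc⟩
  have hcf : ¬ IsOfFinOrder c := by
    intro hf
    have h1 : (Set.univ : Set G).Finite := by
      refine hf.finite_zpowers.subset ?_
      intro g _
      obtain ⟨a, ha⟩ := hc g
      exact ⟨a, ha⟩
    exact Set.infinite_univ h1
  have h1 : Subgroup.zpowers (c ^ (2 : ℤ)) ≠ ⊥ := by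
    intro e
    rw [Subgroup.zpowers_eq_bot] at e
    have := R673.MG.zpow_inj_of hcf (e.trans (zpow_zero c).symm)
    omega
  have h2 : Subgroup.zpowers (c ^ (2 : ℤ)) ≠ ⊤ := by
    intro e
    have h3 : c ∈ Subgroup.zpowers (c ^ (2 : ℤ)) := by rw [e]; trivial
    obtain ⟨a, ha⟩ := h3
    have ha' : (c ^ (2 : ℤ)) ^ a = c ^ (1 : ℤ) := by rw [zpow_one]; exact ha
    rw [← zpow_mul] at ha'
    have := R673.MG.zpow_inj_of hcf ha'
    omega
  obtain ⟨-, h3⟩ := h _ h1 h2
  rw [Nat.card_zpowers] at h3
  have h4 : IsOfFinOrder (c ^ (2 : ℤ)) := by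
    rw [← orderOf_pos_iff, h3]
    exact hp.pos
  apply hcf
  obtain ⟨n, hn, hn1⟩ := isOfFinOrder_iff_pow_eq_one.1 h4
  rw [← zpow_natCast, ← zpow_mul] at hn1
  have := R673.MG.zpow_inj_of hcf (hn1.trans (zpow_zero c).symm)
  omega

theorem tame_of {G : Type u} [Group G] {P : Type v} [Group P] (f : G →* P)
    (hf : ∀ C : Subgroup G, C.FG → ¬ H71R2.Thin.Seen C → (f '' (C : Set G)).Finite)
    (L : Subgroup G) (hL : L.FG) : Tame L f := by
  have hLfg : Group.FG L := (Group.fg_iff_subgroup_fg L).2 hL
  have h1 : ¬ VirtuallyIndicable L → (f '' (L : Set G)).Finite := fun h =>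
    hf L hL (N6.W.unseen_of_not_vi L h)
  have h2 : (∀ a b : L, ¬ H785R3.GrowthA.FreePair a b) → CommutatorsFG L := fun h K hK =>
    N6.W.commutator_sub_fg hLfg h K hK
  have h3 : BoundedBetti L → CommutatorsFG L →
      ∃ A : Subgroup L, A.FiniteIndex ∧ ∀ a ∈ A, ∀ b ∈ A, f a * f b = f b * f a := by
    rintro ⟨b, hb⟩ hc
    exact N6.W.betti_gen f hf L hL b hb hc
  refine ⟨h1, ?_, ?_⟩
  · rintro hb (hc | hn)
    · exact h3 hb hc
    · refine h3 hb (h2 fun a b => ?_)
      obtain ⟨l, l', hne, he⟩ := hn a b
      exact N6.W.homog a b l l' hne he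
  · intro hinf h hinj
    have key : ¬ ¬ N6.W.VI L := by
      intro hvi
      have h4 := h1 hvi
      have h5 : (L : Set G).Finite := h4.of_finite_image hinj
      exact not_finite_iff_infinite.2 hinf h5.to_subtype
    rcases h with h | h | h | h | h | ⟨h, hb⟩
    · obtain ⟨n, hn, h⟩ := h
      exact key (N6.W.not_vi_of_torsion (fun g => ⟨n, hn, h g⟩))
    · exact key (N6.W.not_vi_of_no_fi (R673.MG.cyclic_no_fi h.1 h.2))
    · rcases type4_torsion h with h' | h'
      · exact key h'
      · exact absurd h' (type4_not_cyclic h)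
    · exact key (N6.W.not_vi_of_no_fi (R673.MG.complete_no_fi h))
    · exact key (N6.W.not_vi_of_finite_conj h)
    · obtain ⟨S, hS, hpoly, hexp⟩ := h
      obtain ⟨A, hA, hab⟩ := h3 hb (h2 (N6.W.no_freePair S hS hexp))
      refine N6.W.not_injective_of_type7 L (f.comp L.subtype) A hA hab S hpoly ?_
      intro x y hxy
      exact Subtype.ext (hinj x.2 y.2 hxy)

/-- For every homomorphism `f` from a finitely presented group `G` to the full group of a bounded
action on infinite words, or to the topological full group of a minimal one-dimensional action with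
an invariant mean on a compact Hausdorff space, the images of finitely generated unseen subgroups
are finite, and all finitely generated subgroups are tame. Bounded actions are one-dimensional. -/
theorem result (G : Type) [Group G] [Group.IsFinitelyPresented G] (L : Subgroup G) (hL : L.FG)
    (Γ : Type w) [Group Γ] :
    (∀ (A : Type) [Finite A] [MulAction Γ (ℕ → A)], BoundedAction Γ A →
      OneDimensional Γ (ℕ → A) ∧
      ∀ f : G →* Equiv.Perm (ℕ → A), (∀ g, Piecewise Γ (f g)) →
        (Unseen L → (f '' (L : Set G)).Finite) ∧ Tame L f) ∧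
    (∀ (X : Type) [MulAction Γ X] [TopologicalSpace X] [CompactSpace X] [T2Space X]
      [ContinuousConstSMul Γ X], OneDimensional Γ X → Minimal Γ X →
      (∃ m : Set X → ℝ, IsMean Γ m) →
      ∀ f : G →* (X ≃ₜ X), (∀ g, Locally Γ (f g)) →
        (Unseen L → (f '' (L : Set G)).Finite) ∧ Tame L f) := by
  have hseen : ∀ C : Subgroup G, ¬ H71R2.Thin.Seen C → Run7.h266.Unseen C := by
    intro C hC K hK ψ k hk
    by_contra hne
    exact hC ⟨K, hK, ψ, k, hk, hne⟩
  constructor
  · intro A _ _ hA
    have := Fintype.ofFinite A
    have hBA : Run7.h266.BA Γ A := by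
      intro γ
      obtain ⟨b, hb⟩ := hA γ
      refine ⟨b, fun n => le_trans (Set.encard_le_encard ?_) (hb n)⟩
      rintro _ ⟨x, hx, rfl⟩
      exact ⟨x, fun i => rfl, hx⟩
    refine ⟨fun E hE => ?_, fun f hf => ⟨fun hU => Run7.h266.ba_finite hL hU hBA f hf,
      tame_of f (fun C hC hCs => Run7.h266.ba_finite hC (hseen C hCs) hBA f hf) L hL⟩⟩
    obtain ⟨t, B, hB⟩ := Run7.h266.ba_oneD hBA E hE
    exact ⟨t, B, hB⟩
  · intro X _ _ _ _ _ hX hmin ⟨m, hm⟩ f hf
    have hX' : Run7.h266.OneD Γ X := fun E hE => by
      obtain ⟨t, B, hB⟩ := hX E hE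
      exact ⟨t, B, hB⟩
    exact ⟨fun hU => Run7.h266.top_finite hL hU hX' hmin hm.univ hm.nonneg hm.add hm.inv f hf,
      tame_of f (fun C hC hCs => Run7.h266.top_finite hC (hseen C hCs) hX' hmin hm.univ hm.nonneg
        hm.add hm.inv f hf) L hL⟩

end Pool.Agent.Results.MP_65b575_al.FullGroupsOfThinActions
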