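import Pool.Agent.Run7.h266.OneDimD

/-!
# One-dimensional actions of finitely presented groups

Let `G` be a finitely presented group and `L` a finitely generated subgroup such that every
homomorphism from a finite index subgroup `K` of `G` to `ℤ` is trivial on `K ∩ L` (`Unseen L`; for
`L = G`: `G` is not virtually indicable, for instance an infinite group of one of the types
(2)-(6)). We study the actions of `G` whose Schreier graphs are one-dimensional at one large scale
`D` (depending on `G`, on the generators and on `L`): the points have two colours such that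
monochromatic chains with jumps of length at most `D` contain at most `t` points. This holds for
some `t` if the Schreier graphs have asymptotic dimension at most one uniformly.

The main result is a linear isoperimetric inequality: with a constant `C` depending on `t`, every
finite set `Y` of points contains at most `C |∂Y|` points whose orbit under `L` has more than `C`
points. So the points with orbits of more than `C` points under `L` form a null set for every
invariant mean. If the normalizer of `L` has finite index, their `G`-orbits are nonamenable and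
grow exponentially; there are no such points if `G` is amenable or if the orbits have
subexponential growth. A group of type (7) with bounded virtual first Betti numbers has no
faithful one-dimensional action.
-/

set_option autoImplicit false

open scoped Pointwise

open Pool.Agent

namespace Pool.Agent.Results.MP_65b575_al.OneDimensionalActions

/-- Some finite index subgroup has a nontrivial homomorphism to `ℤ`. -/
def VirtuallyIndicable (G : Type) [Group G] : Prop :=
  ∃ H : Subgroup G, H.FiniteIndex ∧ ∃ f : H →* Multiplicative ℤ, f ≠ 1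

/-- Every homomorphism from a finite index subgroup `K` of `G` to `ℤ` is trivial on `K ∩ L`. -/
def Unseen {G : Type} [Group G] (L : Subgroup G) : Prop :=
  ∀ K : Subgroup G, K.FiniteIndex → ∀ (φ : K →* Multiplicative ℤ) (k : K), (k : G) ∈ L → φ k = 1

/-- A jump from `x` to `y` by an element of `E` such that the colours of `x` and `y` agree; `A` is
the set of the points of the first colour. -/
def Jump {G : Type} [Group G] {X : Type} [MulAction G X] (E : Set G) (A : Set X) (x y : X) :
    Prop :=
  (x ∈ A ↔ y ∈ A) ∧ ∃ g ∈ E, y = g • x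

/-- There is a colouring of `X` by two colours such that at most `t` points are reached by chains
of jumps from each point. -/
def TwoColoured {G : Type} [Group G] (X : Type) [MulAction G X] (E : Set G) (t : ℕ) : Prop :=
  ∃ A : Set X, ∀ x, {y | Relation.ReflTransGen (Jump E A) x y}.encard ≤ t

/-- The action is one-dimensional at all scales. -/
def OneDimensional (G : Type) [Group G] (X : Type) [MulAction G X] : Prop :=
  ∀ E : Set G, E.Finite → ∃ t : ℕ, TwoColoured X E t

/-- A finitely additive probability measure on all subsets of `X`, invariant under `G`. -/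
structure IsMean (G : Type) [Group G] {X : Type} [MulAction G X] (m : Set X → ℝ) : Prop where
  univ : m Set.univ = 1
  nonneg : ∀ A, 0 ≤ m A
  add : ∀ A B : Set X, Disjoint A B → m (A ∪ B) = m A + m B
  inv : ∀ (g : G) (A : Set X), m ((fun x => g • x) ⁻¹' A) = m A

/-- There is a mean on `G` invariant under left multiplication. -/
def Amenable (G : Type) [Group G] : Prop :=
  ∃ m : Set G → ℝ, IsMean G m

/-- The points of `Y` moved out of `Y` by a generator or its inverse. -/
def boundary {G : Type} [Group G] {X : Type} [MulAction G X] (S : Set G) (Y : Set X) : Set X :=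
  {x | x ∈ Y ∧ ∃ s ∈ S, s • x ∉ Y ∨ s⁻¹ • x ∉ Y}

/-- The ball of radius `n` around `x`. -/
def ball {G : Type} [Group G] {X : Type} [MulAction G X] (S : Set G) (n : ℕ) (x : X) : Set X :=
  {y | ∃ g ∈ (S ∪ S⁻¹ ∪ {1}) ^ n, g • x = y}

/-- The points whose orbit under `L` has more than `C` points. -/
def big {G : Type} [Group G] (L : Subgroup G) (C : ℕ) (X : Type) [MulAction G X] : Set X :=
  {x | (C : ℕ∞) < (MulAction.orbit L x).encard}

/-- The orbits have subexponential growth: for all points `x` and all `c > 0` there are arbitrarily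
large `n` such that the ball of radius `n` around `x` has at most `e ^ (c n)` points. -/
def Subexponential {G : Type} [Group G] (S : Set G) (X : Type) [MulAction G X] : Prop :=
  ∀ (x : X) (c : ℝ), 0 < c → ∀ n₀ : ℕ, ∃ n : ℕ, n₀ ≤ n ∧
    ((ball S n x).ncard : ℝ) ≤ Real.exp (c * n)

/-- The first Betti number: the rank of the abelianization. -/
noncomputable def bettiOne (K : Type) [Group K] : ℕ :=
  Module.finrank ℤ (Additive (Abelianization K))

/-- The first Betti numbers of the finite index subgroups of `G` are bounded. -/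
def BoundedBetti (G : Type) [Group G] : Prop :=
  ∃ b : ℕ, ∀ K : Subgroup G, K.FiniteIndex → bettiOne K ≤ b

/-- The growth function with respect to `S`: the number of elements of word length at most `n`. -/
noncomputable def growth {G : Type} [Group G] (S : Finset G) (n : ℕ) : ℕ :=
  (((S : Set G) ∪ (S : Set G)⁻¹ ∪ {1}) ^ n).ncard

/-- Type (2). -/
def Type2 (G : Type) [Group G] : Prop :=
  ∃ n : ℕ, 1 ≤ n ∧ ∀ g : G, g ^ n = 1

/-- Type (3). -/
def Type3 (G : Type) [Group G] : Prop :=
  ¬ IsCyclic G ∧ ∀ H : Subgroup G, H ≠ ⊤ → IsCyclic H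

/-- Type (4). -/
def Type4 (G : Type) [Group G] : Prop :=
  ∃ p : ℕ, p.Prime ∧ ∀ H : Subgroup G, H ≠ ⊥ → H ≠ ⊤ → IsCyclic H ∧ Nat.card H = p

/-- Type (5). -/
def Type5 (G : Type) [Group G] : Prop :=
  ∀ g : G, ∀ m : ℕ, 1 ≤ m → ∃ h : G, h ^ m = g

/-- Type (6). -/
def Type6 (G : Type) [Group G] : Prop :=
  Finite (ConjClasses G)

/-- Type (7): the growth is bounded by no polynomial and, for each `c > 0`, it is somewhere below
`e ^ (c r)`. -/
def Type7 (G : Type) [Group G] : Prop :=
  ∃ S : Finset G, Subgroup.closure (S : Set G) = ⊤ ∧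
    (∀ C d : ℕ, ∃ r : ℕ, C * (r + 1) ^ d < growth S r) ∧
    ∀ c : ℝ, 0 < c → ∃ r : ℕ, (growth S r : ℝ) < Real.exp (c * r)

theorem type4_torsion {G : Type} [Group G] (h : Type4 G) :
    ¬ N6.W.VI G ∨ IsCyclic G := by
  obtain ⟨p, hp, h⟩ := h
  by_cases hc : IsCyclic G
  · exact Or.inr hc
  · refine Or.inl (N6.W.not_vi_of_torsion (fun g => ?_))
    by_cases hg : g = 1
    · exact ⟨1, le_rfl, by simp [hg]⟩
    · have h1 : Subgroup.zpowers g ≠ ⊥ := by
        rw [Ne, Subgroup.zpowers_eq_bot]
        exact hg
      have h2 : Subgroup.zpowers g ≠ ⊤ := by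
        intro e
        apply hc
        refine ⟨g, fun x => ?_⟩
        have hx : x ∈ Subgroup.zpowers g := by rw [e]; trivial
        exact hx
      obtain ⟨-, h3⟩ := h _ h1 h2
      rw [Nat.card_zpowers] at h3
      exact ⟨p, hp.one_le, by rw [← h3, pow_orderOf_eq_one]⟩

theorem type4_not_cyclic {G : Type} [Group G] [Infinite G] (h : Type4 G) : ¬ IsCyclic G := by
  obtain ⟨p, hp, h⟩ := h
  rintro ⟨c, hc⟩
  have hcf : ¬ IsOfFinOrder c := by
    intro hf
    have h1 : (Set.univ : Set G).Finite := by
      refine hf.finite_zpowers.subset ?_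
      intro g _
      obtain ⟨a, ha⟩ := hc g
      exact ⟨a, ha⟩
    exact Set.infinite_univ h1
  have h1 : Subgroup.zpowers (c ^ (2 : ℤ)) ≠ ⊥ := by
    intro e
    rw [Subgroup.zpowers_eq_bot] at e
    have := R673.MG.zpow_inj_of hcf (e.trans (zpow_zero c).symm)
    omega
  have h2 : Subgroup.zpowers (c ^ (2 : ℤ)) ≠ ⊤ := by
    intro e
    have h3 : c ∈ Subgroup.zpowers (c ^ (2 : ℤ)) := by rw [e]; trivial
    obtain ⟨a, ha⟩ := h3
    have ha' : (c ^ (2 : ℤ)) ^ a = c ^ (1 : ℤ) := by rw [zpow_one]; exact ha
    rw [← zpow_mul] at ha'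
    have := R673.MG.zpow_inj_of hcf ha'
    omega
  obtain ⟨-, h3⟩ := h _ h1 h2
  rw [Nat.card_zpowers] at h3
  have h4 : IsOfFinOrder (c ^ (2 : ℤ)) := by
    rw [← orderOf_pos_iff, h3]
    exact hp.pos
  apply hcf
  obtain ⟨n, hn, hn1⟩ := isOfFinOrder_iff_pow_eq_one.1 h4
  rw [← zpow_natCast, ← zpow_mul] at hn1
  have := R673.MG.zpow_inj_of hcf (hn1.trans (zpow_zero c).symm)
  omega

/-- For a finitely presented group `G`: (1) the linear isoperimetric inequality for the points with
big orbits under a finitely generated unseen subgroup `L`, in the actions which are one-dimensional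
at a large scale, and its consequences for invariant means, growth and amenable groups; (2) the
whole group is unseen if and only if it is not virtually indicable, which holds if it is infinite
of one of the types (2)-(6); (3) if `G` has type (7) and bounded virtual first Betti numbers, its
images in the one-dimensional actions are virtually abelian, so these actions are not faithful. -/
theorem result (G : Type) [Group G] [Group.IsFinitelyPresented G] :
    (∀ S : Set G, S.Finite → Subgroup.closure S = ⊤ → ∀ L : Subgroup G, L.FG → Unseen L →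
      ∃ D : ℕ, ∀ t : ℕ, ∃ C : ℕ, ∃ c : ℝ, 0 < c ∧ ∀ (X : Type) [MulAction G X],
        TwoColoured X ((S ∪ S⁻¹ ∪ {1}) ^ D) t →
          (∀ Y : Set X, Y.Finite → (Y ∩ big L C X).ncard ≤ C * (boundary S Y).ncard) ∧
          (∀ m : Set X → ℝ, IsMean G m → m (big L C X) = 0) ∧
          ((Subgroup.normalizer (L : Set G)).FiniteIndex →
            (∀ x ∈ big L C X, (∀ n : ℕ, Real.exp (c * n) ≤ 2 * (ball S n x).ncard) ∧
              ∀ m : Set X → ℝ, IsMean G m → m (MulAction.orbit G x) = 0) ∧
            (Amenable G ∨ Subexponential S X → big L C X = ∅ ∧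
              (MulAction.toPermHom G X '' (L : Set G)).Finite))) ∧
    (Unseen (⊤ : Subgroup G) ↔ ¬ VirtuallyIndicable G) ∧
    (Infinite G → Type2 G ∨ Type3 G ∨ Type4 G ∨ Type5 G ∨ Type6 G →
      ¬ VirtuallyIndicable G) ∧
    (Type7 G → BoundedBetti G → ∀ (X : Type) [MulAction G X], OneDimensional G X →
      (∃ A : Subgroup G, A.FiniteIndex ∧ ∀ a ∈ A, ∀ b ∈ A, ∀ x : X, a • b • x = b • a • x) ∧
      ¬ FaithfulSMul G X) := by
  have hmean : ∀ {X : Type} [MulAction G X] {m : Set X → ℝ}, IsMean G m → Run7.h266.Mean G m :=
    fun h => ⟨h.univ, h.nonneg, h.add, h.inv⟩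
  refine ⟨?_, ?_, ?_, ?_⟩
  · intro S hSf hS L hL hU
    obtain ⟨D, hD⟩ := Run7.h266.twocol_all hS hSf hL hU
    refine ⟨D, fun t => ?_⟩
    obtain ⟨C, c, hc, h⟩ := hD t
    refine ⟨C, c, hc, fun X _ hX => ?_⟩
    obtain ⟨h1, h2, h3⟩ := h X hX
    have h6 : (Subgroup.normalizer (L : Set G)).FiniteIndex → ∀ x ∈ big L C X,
        (∀ n : ℕ, Real.exp (c * n) ≤ 2 * (ball S n x).ncard) ∧
        ∀ m : Set X → ℝ, Run7.h266.Mean G m → m (MulAction.orbit G x) = 0 := by
      intro hN x hx
      rcases h3 hN x with h4 | h4
      · exact absurd hx (not_lt.2 h4)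
      · exact h4
    refine ⟨fun Y hY => h1 Y hY, fun m hm => h2 m (hmean hm), fun hN => ⟨fun x hx => ?_,
      fun hsm => ?_⟩⟩
    · exact ⟨(h6 hN x hx).1, fun m hm => (h6 hN x hx).2 m (hmean hm)⟩
    · have hempty : big L C X = ∅ := by
        rw [Set.eq_empty_iff_forall_notMem]
        intro x hx
        refine Run7.h266.bounded_of hc (x := x) ?_ (h6 hN x hx)
        rcases hsm with ⟨m, hm⟩ | hs
        · exact Or.inr ⟨m, hmean hm⟩
        · exact Or.inl hs
      refine ⟨hempty, Run7.h266.image_finite (MulAction.toPermHom G X) hL C fun x => ?_⟩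
      have h7 : x ∉ big L C X := by rw [hempty]; exact Set.notMem_empty x
      have h8 : (MulAction.orbit L x).encard ≤ C := not_lt.1 h7
      refine le_trans (Set.encard_le_encard ?_) h8
      rintro _ ⟨g, hg, rfl⟩
      exact ⟨⟨g, hg⟩, rfl⟩
  · constructor
    · rintro h ⟨K, hK, φ, hφ⟩
      refine hφ (MonoidHom.ext fun k => ?_)
      rw [h K hK φ k trivial]
      rfl
    · intro h K hK φ k _
      by_contra hne
      refine h ⟨K, hK, φ, fun e => hne ?_⟩
      rw [e]
      rfl
  · rintro hinf (h | h | h | h | h)
    · obtain ⟨n, hn, h⟩ := h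
      exact N6.W.not_vi_of_torsion (fun g => ⟨n, hn, h g⟩)
    · exact N6.W.not_vi_of_no_fi (R673.MG.cyclic_no_fi h.1 h.2)
    · rcases type4_torsion h with h' | h'
      · exact h'
      · exact absurd h' (type4_not_cyclic h)
    · exact N6.W.not_vi_of_no_fi (R673.MG.complete_no_fi h)
    · exact N6.W.not_vi_of_finite_conj h
  · rintro ⟨S, hS, hpoly, hexp⟩ ⟨b, hb⟩ X _ hX
    obtain ⟨A, hA, hab⟩ := Run7.h266.type7_one (Γ := G) S hS hexp b hb
      (MulAction.toPermHom G X) (fun g => ⟨{g}, Set.finite_singleton g, fun x => ⟨g, rfl, rfl⟩⟩) hX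
    refine ⟨⟨A, hA, fun a ha b' hb' x => ?_⟩, fun hfaith => ?_⟩
    · have := DFunLike.congr_fun (hab a ha b' hb') x
      exact this
    · refine N6.W.not_injective_of_type7 G (MulAction.toPermHom G X) A hA hab S hpoly ?_
      exact MulAction.toPerm_injective

end Pool.Agent.Results.MP_65b575_al.OneDimensionalActions
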