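import Pool.Agent.Run7.h266.QuadW

/-!
# Actions of finitely presented groups have at least quadratic growth

Let `G` be a finitely presented group and `L` a finitely generated subgroup such that every
homomorphism from a finite index subgroup `K` of `G` to `ℤ` is trivial on `K ∩ L` (`Unseen L`; for
`L = G`: `G` is not virtually indicable, for instance an infinite group of one of the types
(2)-(6)). There is `D > 0` such that the following holds for every action of `G`: if at one scale
all balls are small, i.e. `D |B(x, r)| ≤ r ^ 2`, then the action satisfies a linear isoperimetric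
inequality: every finite set `Y` contains at most `C |∂Y|` points with orbits of more than `C`
points under `L`. It follows that an action of a finitely presented group `G` which is not virtually
indicable has bounded orbits or contains, for every large `r`, balls of radius `r` with more than
`r ^ 2 / D` points, where `D` depends only on `G` and the generators.

Let `Γ` be a group acting on `X` such that the balls have less than quadratic growth: for all
`δ > 0` the balls of radius `n` have at most `δ n ^ 2` points, for arbitrarily large `n`. Then every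
homomorphism from `G` to the full group of the action (to the topological full group, if `X` is
compact) maps `L` to a finite group. The theorems `SlowActions` and `SubgroupsOfSlowGroups` of the
starting files have `δ n log n / log log n` instead of `δ n ^ 2`.
-/

set_option autoImplicit false

open scoped Pointwise Topology

open Pool.Agent

namespace Pool.Agent.Results.MP_65b575_al.QuadraticActions

universe u v w

/-- Some finite index subgroup has a nontrivial homomorphism to `ℤ`. -/
def VirtuallyIndicable (G : Type u) [Group G] : Prop :=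
  ∃ H : Subgroup G, H.FiniteIndex ∧ ∃ f : H →* Multiplicative ℤ, f ≠ 1

/-- Every homomorphism from a finite index subgroup `K` of `G` to `ℤ` is trivial on `K ∩ L`. -/
def Unseen {G : Type} [Group G] (L : Subgroup G) : Prop :=
  ∀ K : Subgroup G, K.FiniteIndex → ∀ (φ : K →* Multiplicative ℤ) (k : K), (k : G) ∈ L → φ k = 1

/-- The points of `Y` moved out of `Y` by a generator or its inverse. -/
def boundary {G : Type} [Group G] {X : Type} [MulAction G X] (S : Set G) (Y : Set X) : Set X :=
  {x | x ∈ Y ∧ ∃ s ∈ S, s • x ∉ Y ∨ s⁻¹ • x ∉ Y}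

/-- The ball of radius `n` around `x`. -/
def ball {G : Type} [Group G] {X : Type} [MulAction G X] (S : Set G) (n : ℕ) (x : X) : Set X :=
  {y | ∃ g ∈ (S ∪ S⁻¹ ∪ {1}) ^ n, g • x = y}

/-- The points whose orbit under `L` has more than `C` points. -/
def big {G : Type} [Group G] (L : Subgroup G) (C : ℕ) (X : Type) [MulAction G X] : Set X :=
  {x | (C : ℕ∞) < (MulAction.orbit L x).encard}

/-- Growth less than quadratic: for all finite `E` and all `δ > 0` there are arbitrarily large `n`
such that `E ^ n x` has at most `δ n ^ 2` points for all `x`. -/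
def Subquadratic (Γ : Type w) (X : Type) [Group Γ] [MulAction Γ X] : Prop :=
  ∀ E : Set Γ, E.Finite → ∀ δ : ℝ, 0 < δ → ∀ n₀ : ℕ, ∃ n : ℕ, n₀ ≤ n ∧ ∀ x : X,
    (({y | ∃ γ ∈ E ^ n, y = γ • x} : Set X).ncard : ℝ) ≤ δ * (n : ℝ) ^ 2

/-- At each point the permutation `σ` coincides with an element of a fixed finite subset of `Γ`. -/
def Piecewise (Γ : Type w) {X : Type} [Group Γ] [MulAction Γ X] (σ : Equiv.Perm X) : Prop :=
  ∃ E : Set Γ, E.Finite ∧ ∀ x, ∃ γ ∈ E, σ x = γ • x

/-- The homeomorphism `σ` coincides locally with elements of `Γ`. -/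
def Locally (Γ : Type w) {X : Type} [Group Γ] [MulAction Γ X] [TopologicalSpace X]
    (σ : X ≃ₜ X) : Prop :=
  ∀ x, ∃ γ : Γ, ∀ᶠ y in 𝓝 x, σ y = γ • y

/-- The first Betti number: the rank of the abelianization. -/
noncomputable def bettiOne (K : Type u) [Group K] : ℕ :=
  Module.finrank ℤ (Additive (Abelianization K))

/-- The first Betti numbers of the finite index subgroups of `L` are bounded. -/
def BoundedBetti (L : Type u) [Group L] : Prop :=
  ∃ b : ℕ, ∀ K : Subgroup L, K.FiniteIndex → bettiOne K ≤ b

/-- The commutator subgroups of the finite index subgroups are finitely generated. -/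
def CommutatorsFG (L : Type u) [Group L] : Prop :=
  ∀ K : Subgroup L, K.FiniteIndex → (⁅K, K⁆ : Subgroup L).FG

/-- The product of the letters `a` (for `false`) and `b` (for `true`) along the list `l`. -/
def word {G : Type u} [Group G] (a b : G) (l : List Bool) : G :=
  (l.map fun t => if t then b else a).prod

/-- No two elements generate a free semigroup of rank two. -/
def NoFreeSemigroup (G : Type u) [Group G] : Prop :=
  ∀ a b : G, ∃ l l' : List Bool, l ≠ l' ∧ word a b l = word a b l'

/-- The growth function with respect to `S`: the number of elements of word length at most `n`. -/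
noncomputable def growth {G : Type u} [Group G] (S : Finset G) (n : ℕ) : ℕ :=
  (((S : Set G) ∪ (S : Set G)⁻¹ ∪ {1}) ^ n).ncard

/-- Type (2). -/
def Type2 (G : Type u) [Group G] : Prop :=
  ∃ n : ℕ, 1 ≤ n ∧ ∀ g : G, g ^ n = 1

/-- Type (3). -/
def Type3 (G : Type u) [Group G] : Prop :=
  ¬ IsCyclic G ∧ ∀ H : Subgroup G, H ≠ ⊤ → IsCyclic H

/-- Type (4). -/
def Type4 (G : Type u) [Group G] : Prop :=
  ∃ p : ℕ, p.Prime ∧ ∀ H : Subgroup G, H ≠ ⊥ → H ≠ ⊤ → IsCyclic H ∧ Nat.card H = p

/-- Type (5). -/
def Type5 (G : Type u) [Group G] : Prop :=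
  ∀ g : G, ∀ m : ℕ, 1 ≤ m → ∃ h : G, h ^ m = g

/-- Type (6). -/
def Type6 (G : Type u) [Group G] : Prop :=
  Finite (ConjClasses G)

/-- Type (7): the growth is bounded by no polynomial and, for each `c > 0`, it is somewhere below
`e ^ (c r)`. -/
def Type7 (G : Type u) [Group G] : Prop :=
  ∃ S : Finset G, Subgroup.closure (S : Set G) = ⊤ ∧
    (∀ C d : ℕ, ∃ r : ℕ, C * (r + 1) ^ d < growth S r) ∧
    ∀ c : ℝ, 0 < c → ∃ r : ℕ, (growth S r : ℝ) < Real.exp (c * r)

/-- The conclusions for the subgroup `L` and the homomorphism `f`: (a) if `L` is not virtually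
indicable, then `f(L)` is finite; (b) if the Betti numbers are bounded and the commutator
subgroups finitely generated, or there is no free subsemigroup, then `f(L)` is virtually abelian;
(c) `f` is not injective on `L` if `L` is a monster of one of the types (2)-(6), or of type (7)
with bounded Betti numbers. -/
def Tame {G : Type u} [Group G] (L : Subgroup G) {P : Type v} [Group P] (f : G →* P) : Prop :=
  (¬ VirtuallyIndicable L → (f '' (L : Set G)).Finite) ∧
  (BoundedBetti L → CommutatorsFG L ∨ NoFreeSemigroup L →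
    ∃ A : Subgroup L, A.FiniteIndex ∧ ∀ a ∈ A, ∀ b ∈ A, f a * f b = f b * f a) ∧
  (Infinite L → Type2 L ∨ Type3 L ∨ Type4 L ∨ Type5 L ∨ Type6 L ∨ (Type7 L ∧ BoundedBetti L) →
    ¬ Set.InjOn f (L : Set G))

theorem type4_torsion {G : Type u} [Group G] (h : Type4 G) :
    ¬ N6.W.VI G ∨ IsCyclic G := by
  obtain ⟨p, hp, h⟩ := h
  by_cases hc : IsCyclic G
  · exact Or.inr hc
  · refine Or.inl (N6.W.not_vi_of_torsion (fun g => ?_))
    by_cases hg : g = 1
    · exact ⟨1, le_rfl, by simp [hg]⟩
    · have h1 : Subgroup.zpowers g ≠ ⊥ := by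
        rw [Ne, Subgroup.zpowers_eq_bot]
        exact hg
      have h2 : Subgroup.zpowers g ≠ ⊤ := by
        intro e
        apply hc
        refine ⟨g, fun x => ?_⟩
        have hx : x ∈ Subgroup.zpowers g := by rw [e]; trivial
        exact hx
      obtain ⟨-, h3⟩ := h _ h1 h2
      rw [Nat.card_zpowers] at h3
      exact ⟨p, hp.one_le, by rw [← h3, pow_orderOf_eq_one]⟩

theorem type4_not_cyclic {G : Type u} [Group G] [Infinite G] (h : Type4 G) : ¬ IsCyclic G := by
  obtain ⟨p, hp, h⟩ := h
  rintro ⟨c, hc⟩
  have hcf : ¬ IsOfFinOrder c := by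
    intro hf
    have h1 : (Set.univ : Set G).Finite := by
      refine hf.finite_zpowers.subset ?_
      intro g _
      obtain ⟨a, ha⟩ := hc g
      exact ⟨a, ha⟩
    exact Set.infinite_univ h1
  have h1 : Subgroup.zpowers (c ^ (2 : ℤ)) ≠ ⊥ := by
    intro e
    rw [Subgroup.zpowers_eq_bot] at e
    have := R673.MG.zpow_inj_of hcf (e.trans (zpow_zero c).symm)
    omega
  have h2 : Subgroup.zpowers (c ^ (2 : ℤ)) ≠ ⊤ := by
    intro e
    have h3 : c ∈ Subgroup.zpowers (c ^ (2 : ℤ)) := by rw [e]; trivial
    obtain ⟨a, ha⟩ := h3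
    have ha' : (c ^ (2 : ℤ)) ^ a = c ^ (1 : ℤ) := by rw [zpow_one]; exact ha
    rw [← zpow_mul] at ha'
    have := R673.MG.zpow_inj_of hcf ha'
    omega
  obtain ⟨-, h3⟩ := h _ h1 h2
  rw [Nat.card_zpowers] at h3
  have h4 : IsOfFinOrder (c ^ (2 : ℤ)) := by
    rw [← orderOf_pos_iff, h3]
    exact hp.pos
  apply hcf
  obtain ⟨n, hn, hn1⟩ := isOfFinOrder_iff_pow_eq_one.1 h4
  rw [← zpow_natCast, ← zpow_mul] at hn1
  have := R673.MG.zpow_inj_of hcf (hn1.trans (zpow_zero c).symm)
  omega

theorem tame_of {G : Type u} [Group G] {P : Type v} [Group P] (f : G →* P)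
    (hf : ∀ C : Subgroup G, C.FG → ¬ H71R2.Thin.Seen C → (f '' (C : Set G)).Finite)
    (L : Subgroup G) (hL : L.FG) : Tame L f := by
  have hLfg : Group.FG L := (Group.fg_iff_subgroup_fg L).2 hL
  have h1 : ¬ VirtuallyIndicable L → (f '' (L : Set G)).Finite := fun h =>
    hf L hL (N6.W.unseen_of_not_vi L h)
  have h2 : (∀ a b : L, ¬ H785R3.GrowthA.FreePair a b) → CommutatorsFG L := fun h K hK =>
    N6.W.commutator_sub_fg hLfg h K hK
  have h3 : BoundedBetti L → CommutatorsFG L →
      ∃ A : Subgroup L, A.FiniteIndex ∧ ∀ a ∈ A, ∀ b ∈ A, f a * f b = f b * f a := by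
    rintro ⟨b, hb⟩ hc
    exact N6.W.betti_gen f hf L hL b hb hc
  refine ⟨h1, ?_, ?_⟩
  · rintro hb (hc | hn)
    · exact h3 hb hc
    · refine h3 hb (h2 fun a b => ?_)
      obtain ⟨l, l', hne, he⟩ := hn a b
      exact N6.W.homog a b l l' hne he
  · intro hinf h hinj
    have key : ¬ ¬ N6.W.VI L := by
      intro hvi
      have h4 := h1 hvi
      have h5 : (L : Set G).Finite := h4.of_finite_image hinj
      exact not_finite_iff_infinite.2 hinf h5.to_subtype
    rcases h with h | h | h | h | h | ⟨h, hb⟩
    · obtain ⟨n, hn, h⟩ := h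
      exact key (N6.W.not_vi_of_torsion (fun g => ⟨n, hn, h g⟩))
    · exact key (N6.W.not_vi_of_no_fi (R673.MG.cyclic_no_fi h.1 h.2))
    · rcases type4_torsion h with h' | h'
      · exact key h'
      · exact absurd h' (type4_not_cyclic h)
    · exact key (N6.W.not_vi_of_no_fi (R673.MG.complete_no_fi h))
    · exact key (N6.W.not_vi_of_finite_conj h)
    · obtain ⟨S, hS, hpoly, hexp⟩ := h
      obtain ⟨A, hA, hab⟩ := h3 hb (h2 (N6.W.no_freePair S hS hexp))
      refine N6.W.not_injective_of_type7 L (f.comp L.subtype) A hA hab S hpoly ?_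
      intro x y hxy
      exact Subtype.ext (hinj x.2 y.2 hxy)

/-- For a finitely presented group `G`: (1) if all balls of an action are smaller than
`r ^ 2 / D` at one scale, the linear isoperimetric inequality holds for the points with big orbits
under a finitely generated unseen subgroup `L`; (2) if `G` is not virtually indicable, its actions
have bounded orbits or at least quadratic growth, with a constant depending only on `G` and the
generators; (3) in the full group and in the topological full group of an action of less than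
quadratic growth, finitely generated unseen subgroups have finite images, and all finitely
generated subgroups are tame; (4) the infinite groups of the types (2)-(6) are not virtually
indicable. -/
theorem result (G : Type) [Group G] [Group.IsFinitelyPresented G] :
    (∀ S : Set G, S.Finite → Subgroup.closure S = ⊤ → ∀ L : Subgroup G, L.FG → Unseen L →
      ∃ D : ℕ, 0 < D ∧ ∀ r₀ : ℕ, ∃ C : ℕ, ∀ (X : Type) [MulAction G X],
        (∀ x : X, ∃ r ≤ r₀, D * (ball S r x).ncard ≤ r ^ 2) →
          ∀ Y : Set X, Y.Finite → (Y ∩ big L C X).ncard ≤ C * (boundary S Y).ncard) ∧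
    (¬ VirtuallyIndicable G → ∀ S : Set G, S.Finite → Subgroup.closure S = ⊤ →
      ∃ D : ℕ, 0 < D ∧ ∀ (X : Type) [MulAction G X],
        (∃ N : ℕ, ∀ x : X, (MulAction.orbit G x).encard ≤ N) ∨
          ∃ r₁ : ℕ, ∀ r, r₁ ≤ r → ∃ x : X, r ^ 2 < D * (ball S r x).ncard) ∧
    (∀ L : Subgroup G, L.FG →
      ∀ (Γ : Type w) (X : Type) [Group Γ] [MulAction Γ X], Subquadratic Γ X →
        (∀ f : G →* Equiv.Perm X, (∀ g, Piecewise Γ (f g)) →
          (Unseen L → (f '' (L : Set G)).Finite) ∧ Tame L f) ∧
        (∀ [TopologicalSpace X] [CompactSpace X] (f : G →* (X ≃ₜ X)), (∀ g, Locally Γ (f g)) →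
          (Unseen L → (f '' (L : Set G)).Finite) ∧ Tame L f)) ∧
    (Infinite G → Type2 G ∨ Type3 G ∨ Type4 G ∨ Type5 G ∨ Type6 G →
      ¬ VirtuallyIndicable G) := by
  have hseen : ∀ C : Subgroup G, ¬ H71R2.Thin.Seen C → Run7.h266.Unseen C := by
    intro C hC K hK ψ k hk
    by_contra hne
    exact hC ⟨K, hK, ψ, k, hk, hne⟩
  refine ⟨fun S hSf hS L hL hU => Run7.h266.quad_isop hS hSf hL hU, ?_, ?_, ?_⟩
  · intro hvi S hSf hS
    refine Run7.h266.quad_top hS hSf fun K hK φ k _ => ?_
    by_contra hne
    refine hvi ⟨K, hK, φ, fun e => hne ?_⟩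
    rw [e]
    rfl
  · intro L hL Γ X _ _ hX
    exact ⟨fun f hf => ⟨fun hU => Run7.h266.quad_finite hL hU hX f hf,
        tame_of f (fun C hC hCs => Run7.h266.quad_finite hC (hseen C hCs) hX f hf) L hL⟩,
      fun f hf => ⟨fun hU => Run7.h266.quad_finite_top hL hU hX f hf,
        tame_of f (fun C hC hCs => Run7.h266.quad_finite_top hC (hseen C hCs) hX f hf) L hL⟩⟩
  · rintro hinf (h | h | h | h | h)
    · obtain ⟨n, hn, h⟩ := h
      exact N6.W.not_vi_of_torsion (fun g => ⟨n, hn, h g⟩)
    · exact N6.W.not_vi_of_no_fi (R673.MG.cyclic_no_fi h.1 h.2)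
    · rcases type4_torsion h with h' | h'
      · exact h'
      · exact absurd h' (type4_not_cyclic h)
    · exact N6.W.not_vi_of_no_fi (R673.MG.complete_no_fi h)
    · exact N6.W.not_vi_of_finite_conj h

end Pool.Agent.Results.MP_65b575_al.QuadraticActions
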